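import Mathlib
import Pool.Agent.KS6_75.TC.Main

set_option autoImplicit false

/-!
# MP_3301e6_mp: the assertion of Q1 holds for systems with `N` components if and only if `N ≤ 1`

Q1 asserts that the connection `Γ^i_{jk} = α^i_{jk}` of an integrable third-order system of
geometric type has zero torsion or zero curvature.  For `N = 1` this is trivial.  Two components are
enough for a counterexample, for either of the two conventions `∇_k ∂_j = Γ^i_{jk} ∂_i` and
`∇_j ∂_k = Γ^i_{jk} ∂_i` for the curvature.  The systems are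

* `y_t = y_xxx + 3 y_x y_xx + y_x³`, `v_t = v_xxx - 3 y_x v_xx + 3 y_x² v_x` and
* `y_t = y_xxx + 3 y_x y_xx + y_x³`, `v_t = v_xxx + 6 y_xx v_x`.

Both have constant `α`, `β = 0` and constant nonzero torsion and curvature, and both are the third
members of explicit hierarchies of pairwise commuting flows of all odd orders.  With
`B_j = e^{-y} D^j e^y`, `C_j = e^y D^{j-1} (e^{-y} v_x)`, `W_0 = 0`,
`W_{j+1} = D W_j + B_j (v_x + y_x v)` the `n`-th flows (`n` odd) are `y_τ = B_n` and
`v_τ = ∑_{j<n} (-1)^j B_j C_{n-j}`, respectively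
`v_τ = -v B_n + ∑_{j<n} (-1)^j (B_j W_{n-j} - W_j B_{n-j})`.
-/

namespace Pool.Agent.Results.MP_3301e6_mp.NumberOfComponents

open MvPolynomial Pool.Agent.KS6_75.TC

/-- `u_t = K` is the third member of a hierarchy of pairwise commuting flows
`u_τ = u_n + G(u, u_1, ..., u_{n-1})`, one for every odd order `n = 2 k + 1`. -/
def ThirdOfOddHierarchy {N : ℕ} (K : Fin N → Jet N) : Prop :=
  ∃ G : ℕ → Fin N → Jet N,
    (∀ k i, G k i ∈ supported ℝ {p : Fin N × ℕ | p.2 < 2 * k + 1}) ∧
    (∀ k l, FlowsCommute (fun i => X (i, 2 * k + 1) + G k i)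
      (fun i => X (i, 2 * l + 1) + G l i)) ∧
    K = fun i => X (i, 3) + G 1 i

/-- The assertion of Q1 for systems with `N` components (polynomial coefficients): for integrable
systems the torsion or the curvature is identically zero.  The curvature is the one of
`curvature` (`∇_k ∂_j = Γ^i_{jk} ∂_i`). -/
def Assertion (N : ℕ) : Prop :=
  ∀ (α : Fin N → Fin N → Fin N → MvPolynomial (Fin N) ℝ)
    (β : Fin N → Fin N → Fin N → Fin N → MvPolynomial (Fin N) ℝ),
    (∀ i j k m, β i j k m = β i k j m ∧ β i j k m = β i j m k) → Integrable (system α β) →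
      (∀ i j k, torsion α i j k = 0) ∨ ∀ i j k l, curvature α i j k l = 0

/-- The same assertion with the curvature for the other convention (`∇_j ∂_k = Γ^i_{jk} ∂_i`). -/
def Assertion' (N : ℕ) : Prop :=
  ∀ (α : Fin N → Fin N → Fin N → MvPolynomial (Fin N) ℝ)
    (β : Fin N → Fin N → Fin N → Fin N → MvPolynomial (Fin N) ℝ),
    (∀ i j k m, β i j k m = β i k j m ∧ β i j k m = β i j m k) → Integrable (system α β) →
      (∀ i j k, torsion α i j k = 0) ∨
        ∀ i j k l, curvature (fun i j k => α i k j) i j k l = 0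

theorem odd_hier {N : ℕ} (F : Fin N → Fin N → ℕ → Jet N) {p q : Fin N} (hpq : p ≠ q)
    (hF : ∀ {K L : Fin N → Jet N} {n m : ℕ}, Odd n → Odd m → K p = B p m → K q = F p q m →
      L p = B p n → L q = F p q n → ev K (F p q n) = ev L (F p q m))
    (hform : ∀ n, 1 ≤ n → F p q n - X (q, n) ∈ Low N n) : ThirdOfOddHierarchy (flow F p q 3) := by
  refine ⟨fun k i => flow F p q (2 * k + 1) i - X (i, 2 * k + 1), fun k i => ?_, fun k l => ?_, ?_⟩
  · by_cases h1 : i = p
    · subst h1
      simp only [flow, if_true]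
      exact B_form i _ (by omega)
    by_cases h2 : i = q
    · subst h2
      simp only [flow, if_neg h1, if_true]
      exact hform _ (by omega)
    · simp only [flow, if_neg h1, if_neg h2, sub_self]
      exact Subalgebra.zero_mem _
  · simp only [add_sub_cancel]
    exact flow_comm F hpq hF ⟨l, by ring⟩ ⟨k, by ring⟩
  · funext i
    norm_num

theorem torsion_a1 {N : ℕ} {p q : Fin N} (hpq : p ≠ q) :
    torsion (fun i j k => C (a1 p q i j k)) q p q = C (-1) := by
  simp [torsion, a1, hpq.symm]

theorem torsion_a2 {N : ℕ} {p q : Fin N} (hpq : p ≠ q) :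
    torsion (fun i j k => C (a2 p q i j k)) q p q = C (-2) := by
  simp [torsion, a2, hpq.symm, hpq]

theorem curvature_a1 {N : ℕ} {p q : Fin N} (hpq : p ≠ q) :
    curvature (fun i j k => C (a1 p q i j k)) q p p q = C 1 := by
  have e : ∀ s, C (a1 p q q s p) * C (a1 p q s p q) - C (a1 p q q s q) * C (a1 p q s p p) =
      if s = p then (C 1 : MvPolynomial (Fin N) ℝ) else 0 := by
    intro s
    by_cases hs : s = p
    · subst hs
      simp [a1, hpq, hpq.symm]
    · simp [a1, hpq, hpq.symm, hs]
  simp only [curvature, pderiv_C, sub_self, zero_add, e]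
  simp

theorem curvature_a2 {N : ℕ} {p q : Fin N} (hpq : p ≠ q) :
    curvature (fun i j k => C (a2 p q i k j)) q p p q = C (-2) := by
  have e : ∀ s, C (a2 p q q p s) * C (a2 p q s q p) - C (a2 p q q q s) * C (a2 p q s p p) =
      if s = p then (C (-2) : MvPolynomial (Fin N) ℝ) else 0 := by
    intro s
    by_cases hs : s = p
    · subst hs
      simp [a2, hpq, hpq.symm]
    · simp [a2, hpq, hpq.symm, hs]
  simp only [curvature, pderiv_C, sub_self, zero_add, e]
  simp

theorem result :
    -- Q1 for systems with `N` components, in both conventions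
    (∀ N : ℕ, Assertion N ↔ N ≤ 1) ∧ (∀ N : ℕ, Assertion' N ↔ N ≤ 1) ∧
    -- the first system with two components, and its torsion and curvature
    (∃ a : Fin 2 → Fin 2 → Fin 2 → ℝ,
      system (fun i j k => C (a i j k)) (fun _ _ _ _ => 0) =
        ![X (0, 3) + 3 * X (0, 1) * X (0, 2) + X (0, 1) ^ 3,
          X (1, 3) - 3 * X (0, 1) * X (1, 2) + 3 * X (0, 1) ^ 2 * X (1, 1)] ∧
      ThirdOfOddHierarchy (system (fun i j k => C (a i j k)) (fun _ _ _ _ => 0)) ∧
      torsion (fun i j k => C (a i j k)) 1 0 1 = C (-1) ∧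
      curvature (fun i j k => C (a i j k)) 1 0 0 1 = C 1) ∧
    -- the second system with two components, and its torsion and curvature
    (∃ a : Fin 2 → Fin 2 → Fin 2 → ℝ,
      system (fun i j k => C (a i j k)) (fun _ _ _ _ => 0) =
        ![X (0, 3) + 3 * X (0, 1) * X (0, 2) + X (0, 1) ^ 3,
          X (1, 3) + 6 * X (0, 2) * X (1, 1)] ∧
      ThirdOfOddHierarchy (system (fun i j k => C (a i j k)) (fun _ _ _ _ => 0)) ∧
      torsion (fun i j k => C (a i j k)) 1 0 1 = C (-2) ∧
      curvature (fun i j k => C (a i k j)) 1 0 0 1 = C (-2)) := by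
  have h01 : (0 : Fin 2) ≠ 1 := by decide
  have hC : ∀ {N : ℕ} (r : ℝ), r ≠ 0 → (C r : MvPolynomial (Fin N) ℝ) ≠ 0 := by
    intro N r hr h
    exact hr (C_eq_zero.mp h)
  have hsmall : ∀ N : ℕ, N ≤ 1 → ∀ (α : Fin N → Fin N → Fin N → MvPolynomial (Fin N) ℝ) i j k,
      torsion α i j k = 0 := by
    intro N hN α i j k
    have hs : Subsingleton (Fin N) := Fin.subsingleton_iff_le_one.mpr hN
    rw [torsion, Subsingleton.elim j k, sub_self]
  have hlarge : ∀ N : ℕ, ¬ N ≤ 1 → ∃ p q : Fin N, p ≠ q := by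
    intro N hN
    have : Nontrivial (Fin N) := Fin.nontrivial_iff_two_le.mpr (by omega)
    exact exists_pair_ne _
  refine ⟨fun N => ⟨fun h => ?_, fun h α β _ _ => Or.inl (hsmall N h α)⟩,
    fun N => ⟨fun h => ?_, fun h α β _ _ => Or.inl (hsmall N h α)⟩, ⟨a1 0 1, ?_, ?_, ?_, ?_⟩,
    ⟨a2 0 1, ?_, ?_, ?_, ?_⟩⟩
  · by_contra hN
    obtain ⟨p, q, hpq⟩ := hlarge N hN
    rcases h _ _ (fun _ _ _ _ => ⟨rfl, rfl⟩) (int_a1 hpq) with h1 | h1
    · have := h1 q p q
      rw [torsion_a1 hpq] at this
      exact hC _ (by norm_num) this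
    · have := h1 q p p q
      rw [curvature_a1 hpq] at this
      exact hC _ (by norm_num) this
  · by_contra hN
    obtain ⟨p, q, hpq⟩ := hlarge N hN
    rcases h _ _ (fun _ _ _ _ => ⟨rfl, rfl⟩) (int_a2 hpq) with h1 | h1
    · have := h1 q p q
      rw [torsion_a2 hpq] at this
      exact hC _ (by norm_num) this
    · have := h1 q p p q
      rw [curvature_a2 hpq] at this
      exact hC _ (by norm_num) this
  · rw [system_a1 h01]
    funext i
    fin_cases i
    · simp [flow, B_three]
    · simp [flow, F1_three]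
  · rw [system_a1 h01]
    exact odd_hier F1 h01 comm_F1 (F1_form 0 1)
  · exact torsion_a1 h01
  · exact curvature_a1 h01
  · rw [system_a2 h01]
    funext i
    fin_cases i
    · simp [flow, B_three]
    · simp [flow, F2_three]
  · rw [system_a2 h01]
    exact odd_hier F2 h01 comm_F2 (F2_form 0 1)
  · exact torsion_a2 h01
  · exact curvature_a2 h01

end Pool.Agent.Results.MP_3301e6_mp.NumberOfComponents
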